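import Mathlib

/-!
# Reset thresholds of synchronizing automata with transition monoid in DS

We determine `C_DS(n)` exactly: `C_DS(n) = n - 1` for every `n ≥ 1`.

Proof of the upper bound.  Let `M` be the transition monoid, acting linearly on the free vector space
`ℚ Q` and on its augmentation subspace `W` (coefficients summing to `0`), of dimension `n - 1`.  A word
is reset iff it kills `W`.  For an invariant subspace `U ≠ 0` of `W` take a maximal proper invariant
subspace `U'`; the set `I` of all `m` with `m U ⊆ U'` is a two sided ideal which is prime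
(`a M b ⊆ I` implies `a ∈ I` or `b ∈ I`).  In a finite monoid in **DS** every prime ideal is completely
prime (`prime_ideal_completely_prime`).  As a reset word lies in `I`, some letter lies in `I`, i.e. maps
`U` into `U'`.  Going down the chain one gets a reset word of length at most `dim W = n - 1`.
-/

namespace Pool.Agent.Run7.h599.ResetThresholdDS

universe u v w

/-- The principal two-sided ideal `M x M`. -/
def principal {M : Type*} [Monoid M] (x : M) : Set M := {m | ∃ a b : M, m = a * x * b}

/-- The class **DS**: for all `x y z t`, if `MxM = MyM = MzM = MtM = MxyM` then `MxyM = MztM`. -/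
def InDS (M : Type*) [Monoid M] : Prop :=
  ∀ x y z t : M, principal x = principal y → principal y = principal z →
    principal z = principal t → principal t = principal (x * y) →
    principal (x * y) = principal (z * t)

/-- The state reached from `q` by reading the word `w` (letters read from left to right). -/
def run {Q A : Type*} (δ : Q → A → Q) (q : Q) (w : List A) : Q := w.foldl δ q

/-- `w` is a reset word: the image of the set of states under `w` is a single state. -/
def IsReset {Q A : Type*} (δ : Q → A → Q) (w : List A) : Prop :=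
  ∃ p : Q, Set.range (fun q => run δ q w) = {p}

/-- The automaton is synchronizing: it has a reset word. -/
def Synchronizing {Q A : Type*} (δ : Q → A → Q) : Prop := ∃ w : List A, IsReset δ w

/-- The transition monoid: all maps `q ↦ run δ q w`, under composition. -/
def transitionMonoid {Q A : Type*} (δ : Q → A → Q) : Submonoid (Function.End Q) where
  carrier := {f | ∃ w : List A, ∀ q, f q = run δ q w}
  one_mem' := ⟨[], fun q => rfl⟩
  mul_mem' := by
    rintro f g ⟨w, hw⟩ ⟨u, hu⟩
    refine ⟨u ++ w, fun q => ?_⟩
    have h1 : (f * g) q = f (g q) := rfl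
    rw [h1, hu q, hw (run δ q u)]
    simp [run, List.foldl_append]

/-- `k` is the length of a shortest reset word of the automaton. -/
def IsResetThreshold {Q A : Type*} (δ : Q → A → Q) (k : ℕ) : Prop :=
  IsLeast {l : ℕ | ∃ w : List A, IsReset δ w ∧ w.length = l} k

/-- The set of the reset thresholds of all synchronizing automata with `n` states (a finite nonempty
alphabet) whose transition monoid lies in **DS**. -/
def thresholds (n : ℕ) : Set ℕ :=
  {k | ∃ (Q A : Type) (_ : Fintype Q) (_ : Nonempty Q) (_ : Finite A) (_ : Nonempty A)
      (δ : Q → A → Q), Fintype.card Q = n ∧ Synchronizing δ ∧ InDS (transitionMonoid δ) ∧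
      IsResetThreshold δ k}

/-! ### Prime ideals in finite monoids in DS -/

section Monoid

variable {M : Type*} [Monoid M]

lemma mem_principal_self (x : M) : x ∈ principal x := ⟨1, 1, by simp⟩

lemma principal_subset {x y : M} (h : x ∈ principal y) : principal x ⊆ principal y := by
  obtain ⟨a, b, rfl⟩ := h
  rintro m ⟨c, d, rfl⟩
  exact ⟨c * a, b * d, by simp [mul_assoc]⟩

/-- In a finite monoid in **DS** every prime ideal is completely prime. -/
theorem prime_ideal_completely_prime [Finite M] (hM : InDS M) (I : Set M)
    (hl : ∀ x m, m ∈ I → x * m ∈ I) (hr : ∀ x m, m ∈ I → m * x ∈ I)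
    (hp : ∀ a b, a ∉ I → b ∉ I → ∃ x, a * x * b ∉ I) :
    ∀ a b, a ∉ I → b ∉ I → a * b ∉ I := by
  classical
  intro a b ha hb
  -- an element outside `I` with smallest principal ideal
  obtain ⟨m, hmI, hmin⟩ : ∃ m, m ∉ I ∧ ∀ x, x ∉ I → (principal m).ncard ≤ (principal x).ncard := by
    obtain ⟨m, hm, h⟩ := (Set.toFinite {m : M | m ∉ I}).exists_minimalFor
      (fun x => (principal x).ncard) _ ⟨a, ha⟩
    refine ⟨m, hm, fun x hx => ?_⟩
    by_contra hcon
    push Not at hcon
    have h2 : (principal m).ncard ≤ (principal x).ncard := h hx hcon.le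
    omega
  -- every element below `m` outside `I` generates the same ideal
  have key : ∀ x, x ∉ I → x ∈ principal m → principal x = principal m := by
    intro x hx hxm
    exact Set.eq_of_subset_of_ncard_le (principal_subset hxm) (hmin x hx) (Set.toFinite _)
  have hI : ∀ x y, x ∈ I → y ∈ principal x → y ∈ I := by
    rintro x y hx ⟨c, d, rfl⟩
    exact hr _ _ (hl _ _ hx)
  obtain ⟨x, hx⟩ := hp m m hmI hmI
  obtain ⟨y, hy⟩ := hp m a hmI ha
  obtain ⟨z, hz⟩ := hp b m hb hmI
  have hmx : m * x ∉ I := fun h => hx (hr _ _ h)
  have e1 : principal (m * x) = principal m := key _ hmx ⟨1, x, by simp⟩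
  have e2 : principal (m * x * m) = principal m := key _ hx ⟨1, x * m, by simp [mul_assoc]⟩
  have e3 : principal (m * y * a) = principal m := key _ hy ⟨1, y * a, by simp [mul_assoc]⟩
  have e4 : principal (b * z * m) = principal m := key _ hz ⟨b * z, 1, by simp⟩
  have h := hM (m * x) m (m * y * a) (b * z * m) e1 e3.symm (e3.trans e4.symm) (e4.trans e2.symm)
  intro hab
  have h5 : (m * y * a) * (b * z * m) ∈ I := by
    have : (m * y * a) * (b * z * m) = (m * y) * (a * b) * (z * m) := by simp only [mul_assoc]
    rw [this]
    exact hr _ _ (hl _ _ hab)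
  refine hx (hI _ _ h5 ?_)
  rw [← h]
  exact mem_principal_self _

end Monoid

/-! ### Words killing an invariant subspace -/

section Rep

variable {K V M : Type*} [Field K] [AddCommGroup V] [Module K V] [FiniteDimensional K V]
  [Monoid M] [Finite M]

theorem exists_word (hM : InDS M) (ρ : M →* Module.End K V) (A : Set M)
    (hA : Submonoid.closure A = ⊤) (m0 : M) :
    ∀ (d : ℕ) (U : Submodule K V), (∀ m, ∀ u ∈ U, ρ m u ∈ U) → (∀ u ∈ U, ρ m0 u = 0) →
      Module.finrank K U ≤ d →
      ∃ l : List M, (∀ a ∈ l, a ∈ A) ∧ l.length ≤ d ∧ ∀ u ∈ U, ρ l.prod u = 0 := by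
  intro d
  induction d with
  | zero =>
    intro U _ _ hd
    refine ⟨[], by simp, by simp, fun u hu => ?_⟩
    have : U = ⊥ := Submodule.finrank_eq_zero.mp (by omega)
    rw [this, Submodule.mem_bot] at hu
    simp [hu]
  | succ d ih =>
    intro U hinv hkill hd
    by_cases hU : U = ⊥
    · refine ⟨[], by simp, by simp, fun u hu => ?_⟩
      rw [hU, Submodule.mem_bot] at hu
      simp [hu]
    · -- a maximal proper invariant subspace
      obtain ⟨U', ⟨hU'lt, hU'inv⟩, hmax⟩ : ∃ U' : Submodule K V,
          (U' < U ∧ ∀ m, ∀ u ∈ U', ρ m u ∈ U') ∧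
          ∀ X : Submodule K V, (X < U ∧ ∀ m, ∀ u ∈ X, ρ m u ∈ X) → ¬ (U' < X) := by
        obtain ⟨U', h1, h2⟩ := WellFounded.has_min
          (wellFounded_gt : WellFounded ((· > ·) : Submodule K V → Submodule K V → Prop))
          {X : Submodule K V | X < U ∧ ∀ m, ∀ u ∈ X, ρ m u ∈ X}
          ⟨⊥, bot_lt_iff_ne_bot.mpr hU, by
            intro m u hu
            rw [Submodule.mem_bot] at hu ⊢
            simp [hu]⟩
        exact ⟨U', h1, fun X hX => h2 X hX⟩
      set I : Set M := {m | ∀ u ∈ U, ρ m u ∈ U'} with hI
      have hl : ∀ x m, m ∈ I → x * m ∈ I := by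
        intro x m hm u hu
        rw [map_mul]
        exact hU'inv x _ (hm u hu)
      have hr : ∀ x m, m ∈ I → m * x ∈ I := by
        intro x m hm u hu
        rw [map_mul]
        exact hm _ (hinv x u hu)
      have hp : ∀ a b, a ∉ I → b ∉ I → ∃ x, a * x * b ∉ I := by
        intro a b ha hb
        by_contra hcon
        push Not at hcon
        apply ha
        set S : Submodule K V := Submodule.span K {v | ∃ x : M, ∃ u ∈ U, v = ρ (x * b) u} with hS
        have hle : U' ⊔ S ≤ U := by
          refine sup_le hU'lt.le (Submodule.span_le.mpr ?_)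
          rintro v ⟨x, u, hu, rfl⟩
          exact hinv _ _ hu
        have hinv'' : ∀ m, ∀ u ∈ U' ⊔ S, ρ m u ∈ U' ⊔ S := by
          intro m
          have : U' ⊔ S ≤ (U' ⊔ S).comap (ρ m) := by
            refine sup_le ?_ (Submodule.span_le.mpr ?_)
            · intro u hu
              exact Submodule.mem_sup_left (hU'inv m u hu)
            · rintro v ⟨x, u, hu, rfl⟩
              refine Submodule.mem_sup_right (Submodule.subset_span ⟨m * x, u, hu, ?_⟩)
              rw [mul_assoc, map_mul ρ m (x * b)]
              rfl
          exact fun u hu => this hu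
        have hlt : U' < U' ⊔ S := by
          refine lt_of_le_of_ne le_sup_left ?_
          intro heq
          apply hb
          intro u hu
          rw [heq]
          exact Submodule.mem_sup_right (Submodule.subset_span ⟨1, u, hu, by simp⟩)
        have hEq : U' ⊔ S = U := by
          by_contra hne
          exact hmax _ ⟨lt_of_le_of_ne hle hne, hinv''⟩ hlt
        have hfin : U' ⊔ S ≤ U'.comap (ρ a) := by
          refine sup_le ?_ (Submodule.span_le.mpr ?_)
          · intro u hu
            exact hU'inv a u hu
          · rintro v ⟨x, u, hu, rfl⟩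
            have := hcon x u hu
            rw [mul_assoc, map_mul] at this
            exact this
        intro u hu
        rw [← hEq] at hu
        exact hfin hu
      have hcp := prime_ideal_completely_prime hM I hl hr hp
      -- some generator lies in `I`
      have hgen : ∃ a ∈ A, a ∈ I := by
        by_contra hcon
        push Not at hcon
        have h1 : (1 : M) ∉ I := by
          intro h
          apply hU'lt.not_ge
          intro u hu
          simpa using h u hu
        let N : Submonoid M :=
          { carrier := Iᶜ
            one_mem' := h1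
            mul_mem' := fun {a b} ha hb => hcp a b ha hb }
        have hN : Submonoid.closure A ≤ N := Submonoid.closure_le.mpr fun a ha => hcon a ha
        rw [hA] at hN
        have hm0 : m0 ∈ N := hN trivial
        exact hm0 fun u hu => by rw [hkill u hu]; exact U'.zero_mem
      obtain ⟨a, haA, haI⟩ := hgen
      have hfr : Module.finrank K U' < Module.finrank K U := Submodule.finrank_lt_finrank_of_lt hU'lt
      obtain ⟨l, hlA, hllen, hlk⟩ := ih U' hU'inv (fun u hu => hkill u (hU'lt.le hu)) (by omega)
      refine ⟨l ++ [a], ?_, by simpa using hllen, ?_⟩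
      · intro c hc
        rcases List.mem_append.mp hc with h | h
        · exact hlA c h
        · simp only [List.mem_singleton] at h
          rw [h]
          exact haA
      · intro u hu
        rw [List.prod_append, List.prod_singleton, map_mul]
        exact hlk _ (haI u hu)

end Rep

/-! ### The upper bound -/

section Upper

variable {Q : Type u} {A : Type v}

/-- The linear action of the maps `Q → Q` on the free vector space over `Q`. -/
noncomputable def rep (Q : Type u) : Function.End Q →* Module.End ℚ (Q →₀ ℚ) where
  toFun f := Finsupp.lmapDomain ℚ ℚ f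
  map_one' := Finsupp.lmapDomain_id ℚ ℚ
  map_mul' f g := Finsupp.lmapDomain_comp ℚ ℚ g f

lemma rep_single (f : Function.End Q) (q : Q) (c : ℚ) :
    rep Q f (Finsupp.single q c) = Finsupp.single (f q) c := by
  have h : ∀ g : Q → Q, Finsupp.mapDomain g (Finsupp.single q c) = Finsupp.single (g q) c :=
    fun g => Finsupp.mapDomain_single
  exact h f

/-- The map adding up the coefficients. -/
noncomputable def total (Q : Type u) : (Q →₀ ℚ) →ₗ[ℚ] ℚ := Finsupp.lsum ℚ fun _ => LinearMap.id

lemma total_single (q : Q) (c : ℚ) : total Q (Finsupp.single q c) = c := by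
  simp [total]

lemma total_rep (f : Function.End Q) (v : Q →₀ ℚ) : total Q (rep Q f v) = total Q v := by
  have : (total Q).comp (rep Q f) = total Q := by
    ext q
    simp [rep_single, total_single]
  exact LinearMap.congr_fun this v

lemma finrank_ker [Fintype Q] [Nonempty Q] :
    Module.finrank ℚ (LinearMap.ker (total Q)) = Fintype.card Q - 1 := by
  have h := LinearMap.finrank_range_add_finrank_ker (total Q)
  have hr : LinearMap.range (total Q) = ⊤ := by
    rw [LinearMap.range_eq_top]
    intro c
    obtain ⟨q⟩ := ‹Nonempty Q›
    exact ⟨Finsupp.single q c, total_single q c⟩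
  rw [hr, finrank_top, Module.finrank_self] at h
  have h2 : Module.finrank ℚ (Q →₀ ℚ) = Fintype.card Q := by simp
  omega

theorem upper [Fintype Q] [Nonempty Q] (δ : Q → A → Q) (hs : Synchronizing δ)
    (hM : InDS (transitionMonoid δ)) :
    ∃ w : List A, IsReset δ w ∧ w.length ≤ Fintype.card Q - 1 := by
  classical
  -- letters as elements of the transition monoid
  let letter : A → transitionMonoid δ := fun a => ⟨fun q => δ q a, ⟨[a], fun q => rfl⟩⟩
  have hword : ∀ w : List A, ((w.map letter).reverse.prod : transitionMonoid δ).1
      = fun q => run δ q w := by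
    intro w
    induction w with
    | nil => rfl
    | cons a w ih =>
      rw [List.map_cons, List.reverse_cons, List.prod_append, List.prod_singleton]
      funext q
      have h1 : (((w.map letter).reverse.prod * letter a : transitionMonoid δ)).1 q
          = (((w.map letter).reverse.prod : transitionMonoid δ)).1 (δ q a) := rfl
      rw [h1, ih]
      rfl
  have : Finite (Function.End Q) := inferInstanceAs (Finite (Q → Q))
  have : Finite (transitionMonoid δ) := inferInstance
  have hclos : Submonoid.closure (Set.range letter) = ⊤ := by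
    rw [eq_top_iff]
    rintro ⟨f, w, hw⟩ -
    have : (⟨f, w, hw⟩ : transitionMonoid δ) = (w.map letter).reverse.prod := by
      apply Subtype.ext
      rw [hword]
      exact funext hw
    rw [this]
    apply Submonoid.list_prod_mem
    intro x hx
    rw [List.mem_reverse, List.mem_map] at hx
    obtain ⟨a, -, rfl⟩ := hx
    exact Submonoid.subset_closure ⟨a, rfl⟩
  obtain ⟨w0, p0, hw0⟩ := hs
  have hw0' : ∀ q, run δ q w0 = p0 := by
    intro q
    have : run δ q w0 ∈ Set.range (fun q => run δ q w0) := ⟨q, rfl⟩
    rw [hw0] at this
    exact this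
  -- the representation
  let ρ : transitionMonoid δ →* Module.End ℚ (Q →₀ ℚ) := (rep Q).comp (transitionMonoid δ).subtype
  have hρ : ∀ (m : transitionMonoid δ) (v : Q →₀ ℚ), ρ m v = rep Q m.1 v := fun m v => rfl
  let m0 : transitionMonoid δ := (w0.map letter).reverse.prod
  have hm0 : ∀ u ∈ LinearMap.ker (total Q), ρ m0 u = 0 := by
    intro u hu
    have h1 : (rep Q m0.1) = (LinearMap.toSpanSingleton ℚ (Q →₀ ℚ) (Finsupp.single p0 1)).comp
        (total Q) := by
      ext q : 1
      ext
      have : m0.1 q = p0 := by
        have := congrFun (hword w0) q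
        rw [hw0' q] at this
        exact this
      simp [rep_single, total_single, this]
    rw [hρ, h1, LinearMap.comp_apply, LinearMap.mem_ker.mp hu, map_zero]
  obtain ⟨l, hl, hlen, hkill⟩ := exists_word hM ρ (Set.range letter) hclos m0
    (Fintype.card Q - 1) (LinearMap.ker (total Q))
    (by
      intro m u hu
      rw [LinearMap.mem_ker] at hu ⊢
      rw [hρ, total_rep, hu])
    hm0 (le_of_eq finrank_ker)
  -- turn the list of letters into a word
  obtain ⟨w, hw⟩ : ∃ w : List A, l.reverse = w.map letter := by
    have : ∀ l : List (transitionMonoid δ), (∀ a ∈ l, a ∈ Set.range letter) →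
        ∃ w : List A, l = w.map letter := by
      intro l
      induction l with
      | nil => exact fun _ => ⟨[], rfl⟩
      | cons x l ih =>
        intro h
        obtain ⟨a, ha⟩ := h x (by simp)
        obtain ⟨w, hw⟩ := ih fun y hy => h y (by simp [hy])
        exact ⟨a :: w, by rw [hw, List.map_cons, ha]⟩
    exact this _ fun a ha => hl a (List.mem_reverse.mp ha)
  have hl2 : l = (w.map letter).reverse := by rw [← hw, List.reverse_reverse]
  refine ⟨w, ?_, ?_⟩
  · obtain ⟨q0⟩ := ‹Nonempty Q›
    refine ⟨run δ q0 w, ?_⟩
    have hconst : ∀ q, run δ q w = run δ q0 w := by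
      intro q
      have h1 := hkill (Finsupp.single q 1 - Finsupp.single q0 1) (by
        rw [LinearMap.mem_ker, map_sub, total_single, total_single, sub_self])
      rw [hρ, map_sub, rep_single, rep_single, hl2, hword, sub_eq_zero] at h1
      exact Finsupp.single_left_injective one_ne_zero h1
    ext p
    constructor
    · rintro ⟨q, rfl⟩
      exact hconst q
    · rintro rfl
      exact ⟨q0, rfl⟩
  · have : w.length = l.length := by rw [hl2]; simp
    omega

end Upper

/-! ### The lower bound -/

section Lower

lemma inDS_of_comm {M : Type*} [Monoid M] (hc : ∀ x y : M, x * y = y * x) : InDS M := by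
  have sub : ∀ x y z t : M, principal x = principal z → principal y = principal t →
      principal (x * y) ⊆ principal (z * t) := by
    intro x y z t h1 h2
    apply principal_subset
    have hx : x ∈ principal z := h1 ▸ mem_principal_self x
    have hy : y ∈ principal t := h2 ▸ mem_principal_self y
    obtain ⟨a, b, rfl⟩ := hx
    obtain ⟨c, d, rfl⟩ := hy
    refine ⟨a * b * c, d, ?_⟩
    calc a * z * b * (c * t * d) = a * (z * (b * c)) * t * d := by simp only [mul_assoc]
      _ = a * (b * c * z) * t * d := by rw [hc z (b * c)]
      _ = a * b * c * (z * t) * d := by simp only [mul_assoc]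
  intro x y z t h1 h2 h3 _
  exact Set.Subset.antisymm (sub x y z t (h1.trans h2) (h2.trans h3))
    (sub z t x y (h1.trans h2).symm (h2.trans h3).symm)

/-- The one letter automaton `i ↦ min (i+1) (n-1)`. -/
def chain (n : ℕ) (hn : 1 ≤ n) : Fin n → Unit → Fin n :=
  fun i _ => ⟨min (i.1 + 1) (n - 1), by omega⟩

lemma chain_run (n : ℕ) (hn : 1 ≤ n) (w : List Unit) (i : Fin n) :
    (run (chain n hn) i w).1 = min (i.1 + w.length) (n - 1) := by
  induction w generalizing i with
  | nil =>
    have := i.2
    simp only [run, List.foldl_nil, List.length_nil]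
    omega
  | cons a w ih =>
    have h1 : run (chain n hn) i (a :: w) = run (chain n hn) (chain n hn i a) w := rfl
    rw [h1, ih]
    simp only [chain, List.length_cons]
    omega

theorem lower (n : ℕ) (hn : 1 ≤ n) : n - 1 ∈ thresholds n := by
  have hreset : ∀ w : List Unit, IsReset (chain n hn) w ↔ n - 1 ≤ w.length := by
    intro w
    constructor
    · rintro ⟨p, hp⟩
      have h : ∀ i, run (chain n hn) i w = p := by
        intro i
        have : run (chain n hn) i w ∈ Set.range (fun q => run (chain n hn) q w) := ⟨i, rfl⟩
        rw [hp] at this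
        exact this
      have h0 := congrArg Fin.val (h ⟨0, by omega⟩)
      have h1 := congrArg Fin.val (h ⟨n - 1, by omega⟩)
      rw [chain_run] at h0 h1
      simp only at h0 h1
      omega
    · intro hw
      refine ⟨⟨n - 1, by omega⟩, ?_⟩
      ext p
      constructor
      · rintro ⟨i, rfl⟩
        rw [Set.mem_singleton_iff]
        apply Fin.ext
        simp only
        rw [chain_run]
        omega
      · intro hp
        rw [Set.mem_singleton_iff] at hp
        subst hp
        refine ⟨⟨0, by omega⟩, ?_⟩
        apply Fin.ext
        simp only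
        rw [chain_run]
        simp only
        omega
  refine ⟨Fin n, Unit, inferInstance, ⟨⟨0, by omega⟩⟩, inferInstance, inferInstance, chain n hn,
    by simp, ?_, ?_, ?_⟩
  · exact ⟨List.replicate (n - 1) (), (hreset _).mpr (by simp)⟩
  · apply inDS_of_comm
    rintro ⟨f, w, hw⟩ ⟨g, u, hu⟩
    apply Subtype.ext
    funext i
    have h1 : ((⟨f, w, hw⟩ * ⟨g, u, hu⟩ : transitionMonoid (chain n hn))).1 i = f (g i) := rfl
    have h2 : ((⟨g, u, hu⟩ * ⟨f, w, hw⟩ : transitionMonoid (chain n hn))).1 i = g (f i) := rfl
    rw [h1, h2, hu i, hw, hw i, hu]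
    apply Fin.ext
    simp only [chain_run]
    omega
  · refine ⟨⟨List.replicate (n - 1) (), (hreset _).mpr (by simp), by simp⟩, ?_⟩
    rintro l ⟨w, hw, rfl⟩
    exact (hreset w).mp hw

end Lower

/-- **`C_DS(n) = n - 1`.**  (1) Every synchronizing automaton with finitely many (and at least one)
states, over any alphabet, whose transition monoid lies in **DS** has a reset word of length at most
`|Q| - 1`.  (2) For every `n ≥ 1` the largest length of a shortest reset word among all synchronizing
automata with `n` states and transition monoid in **DS** is exactly `n - 1`. -/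
theorem c_DS_eq :
    (∀ (Q : Type u) (A : Type v) [Fintype Q] [Nonempty Q] (δ : Q → A → Q),
      Synchronizing δ → InDS (transitionMonoid δ) →
      ∃ w : List A, IsReset δ w ∧ w.length ≤ Fintype.card Q - 1) ∧
    (∀ n : ℕ, 1 ≤ n → IsGreatest (thresholds n) (n - 1)) := by
  refine ⟨fun Q A _ _ δ hs hM => upper δ hs hM, fun n hn => ⟨lower n hn, ?_⟩⟩
  rintro k ⟨Q, A, _, _, _, _, δ, hcard, hs, hM, hk⟩
  obtain ⟨w, hw, hlen⟩ := upper δ hs hM
  have := hk.2 ⟨w, hw, rfl⟩
  omega

end Pool.Agent.Run7.h599.ResetThresholdDS
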