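import Mathlib

/-!
# Helper file for MP_03f7b8_gt

Let `ℬ` be a base of a `T₁` space all of whose incomparable subfamilies with a common point are
finite, and let `small` be a property of sets which passes to subsets and such that every point has a
small neighbourhood. We construct a point-finite cover by small open sets.

For a family `P ⊆ ℬ` call `g ∈ P` *good* if any two members of `P` which contain `g` are contained in
a third one, and let `W(P, g)` be the union of all members of `P` containing `g`.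
* Every nonempty member of `P` is contained in a good one (otherwise there are infinitely many
  pairwise incompatible members with a common point).
* Only finitely many sets `W(P, g)` contain a given point: if `W(P, g)`, `W(P, h)` differ, then `g`,
  `h` are not contained in a common member of `P`.
We start with the family of all small members of `ℬ`. If a set `W = W(P, g)` is not small then we
cover a point `x ∈ g` by `g` and go on with the family of all members of `P` which are contained in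
`W` and do not contain `x`. A point which stays in sets `W` that are not small for infinitely many
steps would lie in all members of an infinite incomparable subfamily of `ℬ`.
-/

open Set TopologicalSpace

namespace Run7.h599.Sub

variable {X : Type*}

/-- Every incomparable subfamily with a common point is finite. -/
def FAC (ℬ : Set (Set X)) : Prop :=
  ∀ Γ ⊆ ℬ, (∀ A ∈ Γ, ∀ B ∈ Γ, A ≠ B → ¬ A ⊆ B) → (⋂₀ Γ).Nonempty → Γ.Finite

/-- `g` is good in `P`: any two members of `P` containing `g` are contained in a third one. -/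
def Good (P : Set (Set X)) (g : Set X) : Prop :=
  g ∈ P ∧ ∀ h ∈ P, ∀ h' ∈ P, g ⊆ h → g ⊆ h' → ∃ k ∈ P, h ⊆ k ∧ h' ⊆ k

/-- The union of the members of `P` containing `g`. -/
def W (P : Set (Set X)) (g : Set X) : Set X := ⋃₀ {h | h ∈ P ∧ g ⊆ h}

lemma FAC.mono {ℬ P : Set (Set X)} (h : FAC ℬ) (hP : P ⊆ ℬ) : FAC P :=
  fun Γ hΓ => h Γ (hΓ.trans hP)

/-- An infinite sequence of pairwise incomparable members with a common point is impossible. -/
lemma FAC.no_seq {ℬ : Set (Set X)} (h : FAC ℬ) (z : X) (f : ℕ → Set X) (hf : ∀ n, f n ∈ ℬ)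
    (hz : ∀ n, z ∈ f n) (hinc : ∀ m n, m < n → ¬ f m ⊆ f n ∧ ¬ f n ⊆ f m) : False := by
  have hinj : Function.Injective f := by
    intro m n hmn
    by_contra hne
    rcases lt_or_gt_of_ne hne with h1 | h1
    · exact (hinc m n h1).1 hmn.subset
    · exact (hinc n m h1).2 hmn.subset
  have hfin : (Set.range f).Finite := by
    apply h
    · rintro _ ⟨n, rfl⟩; exact hf n
    · rintro _ ⟨m, rfl⟩ _ ⟨n, rfl⟩ hne
      have hmn : m ≠ n := fun e => hne (by rw [e])
      rcases lt_or_gt_of_ne hmn with h1 | h1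
      · exact (hinc m n h1).1
      · exact (hinc n m h1).2
    · exact ⟨z, by rintro _ ⟨n, rfl⟩; exact hz n⟩
  exact Set.infinite_range_of_injective hinj hfin

lemma Good.up {P : Set (Set X)} {g h : Set X} (hg : Good P g) (hh : h ∈ P) (hgh : g ⊆ h) :
    Good P h :=
  ⟨hh, fun a ha b hb hab hbb => hg.2 a ha b hb (hgh.trans hab) (hgh.trans hbb)⟩

lemma W_eq_of_subset {P : Set (Set X)} {g h : Set X} (hg : Good P g) (hh : h ∈ P) (hgh : g ⊆ h) :
    W P h = W P g := by
  apply Set.Subset.antisymm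
  · rintro x ⟨k, ⟨hk, hhk⟩, hx⟩
    exact ⟨k, ⟨hk, hgh.trans hhk⟩, hx⟩
  · rintro x ⟨k, ⟨hk, hgk⟩, hx⟩
    obtain ⟨l, hl, hkl, hhl⟩ := hg.2 k hk h hh hgk hgh
    exact ⟨l, ⟨hl, hhl⟩, hkl hx⟩

/-- Every member is contained in a good one. -/
lemma exists_good {P : Set (Set X)} (hP : FAC P) {B : Set X} (hB : B ∈ P) {z : X} (hz : z ∈ B) :
    ∃ g, Good P g ∧ B ⊆ g := by
  by_contra hno
  push Not at hno
  -- every member above `B` splits
  have hsplit : ∀ b : {b : Set X // b ∈ P ∧ B ⊆ b}, ∃ p : {b : Set X // b ∈ P ∧ B ⊆ b} ×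
      {b : Set X // b ∈ P ∧ B ⊆ b}, b.1 ⊆ p.1.1 ∧ b.1 ⊆ p.2.1 ∧
        ¬ ∃ k ∈ P, p.1.1 ⊆ k ∧ p.2.1 ⊆ k := by
    rintro ⟨b, hb, hBb⟩
    by_contra hcon
    push Not at hcon
    refine hno b ⟨hb, fun h hh h' hh' h1 h2 => ?_⟩ hBb
    obtain ⟨k, hk⟩ := hcon (⟨h, hh, hBb.trans h1⟩, ⟨h', hh', hBb.trans h2⟩) h1 h2
    exact ⟨k, hk⟩
  choose s hs using hsplit
  let b : ℕ → {b : Set X // b ∈ P ∧ B ⊆ b} := fun n =>
    Nat.rec ⟨B, hB, subset_rfl⟩ (fun _ c => (s c).2) n
  have hb : ∀ n, b (n + 1) = (s (b n)).2 := fun n => rfl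
  have hmono : ∀ m n, m ≤ n → (b m).1 ⊆ (b n).1 := by
    intro m n hmn
    induction n, hmn using Nat.le_induction with
    | base => exact subset_rfl
    | succ n _ ih => exact ih.trans (by rw [hb]; exact (hs (b n)).2.1)
  let a : ℕ → Set X := fun n => (s (b n)).1.1
  have hinc : ∀ m n, m < n → ¬ ∃ k ∈ P, a m ⊆ k ∧ a n ⊆ k := by
    rintro m n hmn ⟨k, hk, h1, h2⟩
    refine (hs (b m)).2.2 ⟨k, hk, h1, ?_⟩
    rw [← hb]
    exact ((hmono (m + 1) n hmn).trans (hs (b n)).1).trans h2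
  have haP : ∀ n, a n ∈ P := fun n => (s (b n)).1.2.1
  refine hP.no_seq z a haP (fun n => (s (b n)).1.2.2 hz) (fun m n hmn => ⟨fun h => ?_, fun h => ?_⟩)
  · exact hinc m n hmn ⟨a n, haP n, h, subset_rfl⟩
  · exact hinc m n hmn ⟨a m, haP m, subset_rfl, h⟩

/-- Only finitely many sets `W P g`, `g` good, contain `z`. -/
lemma finite_W {P : Set (Set X)} (hP : FAC P) (z : X) :
    {V : Set X | (∃ g, Good P g ∧ W P g = V) ∧ z ∈ V}.Finite := by
  by_contra hinf
  have hinf' : {V : Set X | (∃ g, Good P g ∧ W P g = V) ∧ z ∈ V}.Infinite := hinf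
  let f := hinf'.natEmbedding
  have hex : ∀ n, ∃ h, Good P h ∧ z ∈ h ∧ W P h = (f n).1 := by
    intro n
    obtain ⟨⟨g, hg, hgW⟩, hz⟩ := (f n).2
    have hz' := hz
    rw [← hgW] at hz'
    obtain ⟨h, ⟨hh, hgh⟩, hzh⟩ := hz'
    exact ⟨h, hg.up hh hgh, hzh, (W_eq_of_subset hg hh hgh).trans hgW⟩
  choose h hg hz hW using hex
  have hne : ∀ m n, m ≠ n → W P (h m) ≠ W P (h n) := by
    intro m n hmn e
    rw [hW, hW] at e
    exact hmn (f.injective (Subtype.ext e))
  refine hP.no_seq z h (fun n => (hg n).1) hz (fun m n hmn => ⟨fun hs => ?_, fun hs => ?_⟩)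
  · exact hne n m hmn.ne' (W_eq_of_subset (hg m) (hg n).1 hs)
  · exact hne m n hmn.ne (W_eq_of_subset (hg n) (hg m).1 hs)

section tree

variable (P₀ : Set (Set X)) (small : Set X → Prop) (G : Set (Set X) → Set X → Set X)
  (pt : Set (Set X) → Set X → X)

/-- The family at a node; the node is given by the list of the sets `W` chosen so far. -/
def fam : List (Set X) → Set (Set X)
  | [] => P₀
  | V :: q => {B | B ∈ fam q ∧ B ⊆ V ∧ pt (fam q) V ∉ B}

/-- `V` is one of the sets `W` for the family `P`. -/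
def IsW (P : Set (Set X)) (V : Set X) : Prop := ∃ g, Good P g ∧ W P g = V

/-- The nodes of the tree. -/
def valid : List (Set X) → Prop
  | [] => True
  | V :: q => valid q ∧ IsW (fam P₀ pt q) V ∧ ¬ small V

/-- The cover. -/
def cover : Set (Set X) :=
  {V | ∃ q, valid P₀ small pt q ∧ IsW (fam P₀ pt q) V ∧ small V} ∪
    {V | ∃ U q, valid P₀ small pt (U :: q) ∧ V = G (fam P₀ pt q) U}

variable {P₀ small G pt}

lemma fam_sub (q : List (Set X)) : fam P₀ pt q ⊆ P₀ := by
  induction q with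
  | nil => exact subset_rfl
  | cons V q ih => exact fun B hB => ih hB.1

lemma fam_mem_sub {q : List (Set X)} {B : Set X} (hB : B ∈ fam P₀ pt q) {V : Set X} (hV : V ∈ q) :
    B ⊆ V := by
  induction q with
  | nil => simp at hV
  | cons U q ih =>
    rcases List.mem_cons.mp hV with rfl | h
    · exact hB.2.1
    · exact ih hB.1 h

lemma isW_sub {q : List (Set X)} {V : Set X} (hV : IsW (fam P₀ pt q) V) {U : Set X} (hU : U ∈ q) :
    V ⊆ U := by
  obtain ⟨g, -, rfl⟩ := hV
  rintro x ⟨h, ⟨hh, -⟩, hx⟩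
  exact fam_mem_sub hh hU hx

lemma valid_of_append (l : List (Set X)) {p : List (Set X)}
    (h : valid P₀ small pt (l ++ p)) : valid P₀ small pt p := by
  induction l with
  | nil => exact h
  | cons a l ih => exact ih h.1

/-- The nodes all of whose sets contain `z`. -/
def T (P₀ : Set (Set X)) (small : Set X → Prop) (pt : Set (Set X) → Set X → X) (z : X) :
    Set (List (Set X)) := {q | valid P₀ small pt q ∧ ∀ V ∈ q, z ∈ V}

/-- The relation `q → V :: q`. -/
def R (P₀ : Set (Set X)) (small : Set X → Prop) (pt : Set (Set X) → Set X → X) (z : X)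
    (p q : List (Set X)) : Prop := ∃ V, p = V :: q ∧ p ∈ T P₀ small pt z

variable (hP : FAC P₀) (hPs : ∀ B ∈ P₀, small B) (hsmall : ∀ A B : Set X, A ⊆ B → small B → small A)
  (hG : ∀ P V, IsW P V → Good P (G P V) ∧ W P (G P V) = V ∧ (P ⊆ P₀ → pt P V ∈ G P V))

include hP hPs hsmall hG in
lemma R_wf (z : X) : WellFounded (R P₀ small pt z) := by
  rw [wellFounded_iff_isEmpty_descending_chain]
  refine ⟨fun ⟨f, hf⟩ => ?_⟩
  -- the data along the chain
  choose V hV hT using hf
  have hvalid : ∀ n, valid P₀ small pt (V n :: f n) := fun n => by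
    have := (hT n).1
    rwa [hV n] at this
  have hW : ∀ n, IsW (fam P₀ pt (f n)) (V n) := fun n => (hvalid n).2.1
  have hbad : ∀ n, ¬ small (V n) := fun n => (hvalid n).2.2
  have hzV : ∀ n, z ∈ V n := fun n => by
    apply (hT n).2
    rw [hV n]
    simp
  have hfam : ∀ n, fam P₀ pt (f (n + 1)) =
      {B | B ∈ fam P₀ pt (f n) ∧ B ⊆ V n ∧ pt (fam P₀ pt (f n)) (V n) ∉ B} := fun n => by
    rw [hV n]; rfl
  have hmono : ∀ m n, m ≤ n → fam P₀ pt (f n) ⊆ fam P₀ pt (f m) := by
    intro m n hmn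
    induction n, hmn using Nat.le_induction with
    | base => exact subset_rfl
    | succ n _ ih => exact fun B hB => ih (by rw [hfam] at hB; exact hB.1)
  let g : ℕ → Set X := fun n => G (fam P₀ pt (f n)) (V n)
  let x : ℕ → X := fun n => pt (fam P₀ pt (f n)) (V n)
  have hg : ∀ n, Good (fam P₀ pt (f n)) (g n) := fun n => (hG _ _ (hW n)).1
  have hgW : ∀ n, W (fam P₀ pt (f n)) (g n) = V n := fun n => (hG _ _ (hW n)).2.1
  have hx : ∀ n, x n ∈ g n := fun n => (hG _ _ (hW n)).2.2 (fam_sub _)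
  have havoid : ∀ m n, m < n → ∀ B ∈ fam P₀ pt (f n), x m ∉ B := by
    intro m n hmn B hB
    have h1 := hmono (m + 1) n hmn hB
    rw [hfam] at h1
    exact h1.2.2
  -- directedness
  have hdir : ∀ n (s : Finset X), (∀ y ∈ s, y ∈ V n) → ∃ D ∈ fam P₀ pt (f n), g n ⊆ D ∧
      ∀ y ∈ s, y ∈ D := by
    intro n s
    classical
    induction s using Finset.induction_on with
    | empty => exact fun _ => ⟨g n, (hg n).1, subset_rfl, by simp⟩
    | insert a s ha ih =>
      intro hs
      obtain ⟨D, hD, hgD, hsD⟩ := ih (fun y hy => hs y (Finset.mem_insert_of_mem hy))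
      have haV := hs a (Finset.mem_insert_self _ _)
      rw [← hgW n] at haV
      obtain ⟨E, ⟨hE, hgE⟩, haE⟩ := haV
      obtain ⟨K, hK, hDK, hEK⟩ := (hg n).2 D hD E hE hgD hgE
      refine ⟨K, hK, hgD.trans hDK, fun y hy => ?_⟩
      rcases Finset.mem_insert.mp hy with rfl | hy
      · exact hEK haE
      · exact hDK (hsD y hy)
  obtain ⟨c, hc1, hc2⟩ := exists_seq_of_forall_finset_exists
    (α := ℕ × Set X) (fun p => p.2 ∈ fam P₀ pt (f p.1) ∧ g p.1 ⊆ p.2 ∧ z ∈ p.2)
    (fun p q => p.1 < q.1 ∧ ¬ q.2 ⊆ p.2) (by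
      intro s hs
      classical
      obtain ⟨n, hn⟩ : ∃ n : ℕ, ∀ p ∈ s, p.1 < n := by
        refine ⟨s.sup (fun p => p.1) + 1, fun p hp => ?_⟩
        exact Nat.lt_succ_of_le (Finset.le_sup (f := fun p : ℕ × Set X => p.1) hp)
      have hw : ∀ p ∈ s, ∃ w ∈ V n, w ∉ p.2 := by
        intro p hp
        by_contra hcon
        push Not at hcon
        exact hbad n (hsmall _ _ hcon (hPs _ (fam_sub _ (hs p hp).1)))
      have : Nonempty X := ⟨z⟩
      choose! w hw1 hw2 using hw
      obtain ⟨D, hD, hgD, hsD⟩ := hdir n (insert z (s.image w)) (by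
        intro y hy
        rcases Finset.mem_insert.mp hy with rfl | hy
        · exact hzV n
        · obtain ⟨p, hp, rfl⟩ := Finset.mem_image.mp hy
          exact hw1 p hp)
      refine ⟨(n, D), ⟨hD, hgD, hsD z (Finset.mem_insert_self _ _)⟩, fun p hp => ⟨hn p hp, ?_⟩⟩
      intro hsub
      exact hw2 p hp (hsub (hsD _ (Finset.mem_insert_of_mem (Finset.mem_image_of_mem w hp)))))
  refine hP.no_seq z (fun n => (c n).2) (fun n => fam_sub _ (hc1 n).1) (fun n => (hc1 n).2.2)
    (fun m n hmn => ⟨fun hs => ?_, (hc2 m n hmn).2⟩)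
  exact havoid _ _ (hc2 m n hmn).1 _ (hc1 n).1 (hs ((hc1 m).2.1 (hx _)))

include hP hPs hsmall hG in
lemma T_finite (z : X) : (T P₀ small pt z).Finite := by
  -- descendants
  have key : ∀ p : List (Set X), {q | q ∈ T P₀ small pt z ∧ p <:+ q}.Finite := by
    intro p
    induction p using (R_wf hP hPs hsmall hG z).induction with
    | _ p ih =>
      have hsub : {q | q ∈ T P₀ small pt z ∧ p <:+ q} ⊆ {p} ∪
          ⋃ V ∈ {V : Set X | (∃ g, Good (fam P₀ pt p) g ∧ W (fam P₀ pt p) g = V) ∧ z ∈ V},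
            {q | q ∈ T P₀ small pt z ∧ (V :: p) <:+ q ∧ (V :: p) ∈ T P₀ small pt z} := by
        rintro q ⟨hq, l, rfl⟩
        induction l using List.reverseRecOn with
        | nil => left; simp
        | append_singleton l V _ =>
          right
          have e : l ++ [V] ++ p = l ++ (V :: p) := by simp
          rw [e] at hq ⊢
          have hVp : (V :: p) ∈ T P₀ small pt z := by
            refine ⟨?_, fun U hU => hq.2 U (List.mem_append_right _ hU)⟩
            exact valid_of_append l hq.1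
          simp only [mem_iUnion]
          exact ⟨V, ⟨hVp.1.2.1, hVp.2 V (by simp)⟩, hq, List.suffix_append _ _, hVp⟩
      refine Set.Finite.subset ((Set.finite_singleton p).union ?_) hsub
      refine Set.Finite.biUnion (finite_W (hP.mono (fam_sub p)) z) (fun V _ => ?_)
      by_cases hVp : (V :: p) ∈ T P₀ small pt z
      · exact (ih (V :: p) ⟨V, rfl, hVp⟩).subset (fun q hq => ⟨hq.1, hq.2.1⟩)
      · convert Set.finite_empty
        ext q
        simp [hVp]
  refine (key []).subset (fun q hq => ⟨hq, List.nil_suffix⟩)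

include hP hPs hsmall hG in
/-- The cover is point-finite. -/
lemma cover_pointFinite (z : X) : {V | V ∈ cover P₀ small G pt ∧ z ∈ V}.Finite := by
  have hT := T_finite hP hPs hsmall hG z
  have hsub : {V | V ∈ cover P₀ small G pt ∧ z ∈ V} ⊆
      (⋃ q ∈ T P₀ small pt z,
        {V : Set X | (∃ g, Good (fam P₀ pt q) g ∧ W (fam P₀ pt q) g = V) ∧ z ∈ V}) ∪
      ((fun l : List (Set X) => match l with
        | [] => (∅ : Set X)
        | U :: q => G (fam P₀ pt q) U) '' T P₀ small pt z) := by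
    rintro V ⟨hV | hV, hz⟩
    · left
      obtain ⟨q, hq, hW, -⟩ := hV
      simp only [mem_iUnion]
      exact ⟨q, ⟨hq, fun U hU => isW_sub hW hU hz⟩, hW, hz⟩
    · right
      obtain ⟨U, q, hq, rfl⟩ := hV
      refine ⟨U :: q, ⟨hq, fun U' hU' => ?_⟩, rfl⟩
      have hgood := hG _ _ hq.2.1
      have hGU : G (fam P₀ pt q) U ⊆ U := by
        intro y hy
        rw [← hgood.2.1]
        exact ⟨_, ⟨hgood.1.1, subset_rfl⟩, hy⟩
      rcases List.mem_cons.mp hU' with rfl | h
      · exact hGU hz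
      · exact fam_mem_sub hgood.1.1 h hz
  refine Set.Finite.subset (Set.Finite.union ?_ (hT.image _)) hsub
  exact Set.Finite.biUnion hT (fun q _ => finite_W (hP.mono (fam_sub q)) z)

include hP hPs hsmall hG in
/-- The cover covers, if the families are rich enough. -/
lemma cover_covers (z : X)
    (hrich : ∀ (F : Finset X) (q : List (Set X)), z ∉ F → (∀ V ∈ q, z ∈ V) →
      valid P₀ small pt q → ∃ B ∈ P₀, z ∈ B ∧ (∀ y ∈ F, y ∉ B) ∧ ∀ V ∈ q, B ⊆ V) :
    ∃ V ∈ cover P₀ small G pt, z ∈ V := by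
  by_contra hno
  push Not at hno
  -- no node of `T` has `z` among its points
  have hfam : ∀ q : List (Set X), q ∈ T P₀ small pt z → ∃ F : Finset X, z ∉ F ∧
      ∀ B ∈ P₀, (∀ y ∈ F, y ∉ B) → (∀ V ∈ q, B ⊆ V) → B ∈ fam P₀ pt q := by
    classical
    intro q
    induction q with
    | nil => exact fun _ => ⟨∅, by simp, fun B hB _ _ => hB⟩
    | cons V q ih =>
      intro hq
      obtain ⟨F, hzF, hF⟩ := ih ⟨hq.1.1, fun U hU => hq.2 U (List.mem_cons_of_mem _ hU)⟩
      refine ⟨insert (pt (fam P₀ pt q) V) F, ?_, fun B hB hBF hBV => ?_⟩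
      · intro hz
        rcases Finset.mem_insert.mp hz with h | h
        · refine hno (G (fam P₀ pt q) V) (Or.inr ⟨V, q, hq.1, rfl⟩) ?_
          rw [h]
          exact (hG _ _ hq.1.2.1).2.2 (fam_sub _)
        · exact hzF h
      · refine ⟨hF B hB (fun y hy => hBF y (Finset.mem_insert_of_mem hy))
          (fun U hU => hBV U (List.mem_cons_of_mem _ hU)), hBV V (by simp), ?_⟩
        exact hBF _ (Finset.mem_insert_self _ _)
  have hnone : ∀ q : List (Set X), q ∉ T P₀ small pt z := by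
    intro q
    induction q using (R_wf hP hPs hsmall hG z).induction with
    | _ q ih =>
      intro hq
      obtain ⟨F, hzF, hF⟩ := hfam q hq
      obtain ⟨B, hB, hzB, hBF, hBV⟩ := hrich F q hzF hq.2 hq.1
      obtain ⟨g, hg, hBg⟩ := exists_good (hP.mono (fam_sub q)) (hF B hB hBF hBV) hzB
      have hzW : z ∈ W (fam P₀ pt q) g := ⟨g, ⟨hg.1, subset_rfl⟩, hBg hzB⟩
      by_cases hs : small (W (fam P₀ pt q) g)
      · exact hno _ (Or.inl ⟨q, hq.1, ⟨g, hg, rfl⟩, hs⟩) hzW
      · have hmem : (W (fam P₀ pt q) g :: q) ∈ T P₀ small pt z := by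
          refine ⟨⟨hq.1, ⟨g, hg, rfl⟩, hs⟩, fun U hU => ?_⟩
          rcases List.mem_cons.mp hU with rfl | h
          · exact hzW
          · exact hq.2 U h
        exact ih _ ⟨_, rfl, hmem⟩ hmem
  exact hnone [] ⟨trivial, by simp⟩

end tree

/-- **Every `T₁` space with a base of subinfinite rank is metacompact.** -/
theorem metacompact_of_base [TopologicalSpace X] [T1Space X] (ℬ : Set (Set X))
    (hB : IsTopologicalBasis ℬ) (hFAC : FAC ℬ) (𝒰 : Set (Set X)) (hU : ∀ U ∈ 𝒰, IsOpen U)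
    (hcov : ⋃₀ 𝒰 = univ) :
    ∃ 𝒱 : Set (Set X), (∀ V ∈ 𝒱, IsOpen V ∧ ∃ U ∈ 𝒰, V ⊆ U) ∧ ⋃₀ 𝒱 = univ ∧
      ∀ x, {V | V ∈ 𝒱 ∧ x ∈ V}.Finite := by
  classical
  rcases isEmpty_or_nonempty X with hX | hX
  · exact ⟨∅, by simp, by ext x; exact (hX.false x).elim, fun x => (hX.false x).elim⟩
  let small : Set X → Prop := fun A => ∃ U ∈ 𝒰, A ⊆ U
  let P₀ : Set (Set X) := {B | B ∈ ℬ ∧ B.Nonempty ∧ small B}
  have hP₀ : FAC P₀ := hFAC.mono (fun B hB => hB.1)
  have hchoice : ∀ P : Set (Set X), ∀ V : Set X, IsW P V → ∃ g x, Good P g ∧ W P g = V ∧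
      (P ⊆ P₀ → x ∈ g) := by
    rintro P V ⟨g, hg, hgV⟩
    by_cases hPP : P ⊆ P₀
    · obtain ⟨x, hx⟩ := (hPP hg.1).2.1
      exact ⟨g, x, hg, hgV, fun _ => hx⟩
    · exact ⟨g, Classical.arbitrary X, hg, hgV, fun h => (hPP h).elim⟩
  choose! G pt hG using hchoice
  have hsmall : ∀ A B : Set X, A ⊆ B → small B → small A := by
    rintro A B hAB ⟨U, hU, hBU⟩
    exact ⟨U, hU, hAB.trans hBU⟩
  have hPs : ∀ B ∈ P₀, small B := fun B hB => hB.2.2
  have hPo : ∀ B ∈ P₀, IsOpen B := fun B hB' => hB.isOpen hB'.1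
  have hWo : ∀ q V, IsW (fam P₀ pt q) V → IsOpen V := by
    rintro q V ⟨g, -, rfl⟩
    exact isOpen_sUnion (fun h hh => hPo h (fam_sub q hh.1))
  refine ⟨cover P₀ small G pt, ?_, ?_, cover_pointFinite hP₀ hPs hsmall hG⟩
  · rintro V (⟨q, -, hW, hs⟩ | ⟨U, q, hq, rfl⟩)
    · exact ⟨hWo q V hW, hs⟩
    · have h1 := fam_sub q (hG _ _ hq.2.1).1.1
      exact ⟨hPo _ h1, h1.2.2⟩
  · refine eq_univ_of_forall (fun z => ?_)
    obtain ⟨V, hV, hz⟩ := cover_covers hP₀ hPs hsmall hG z (fun F q hzF hzq hq => by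
      -- an open neighbourhood
      have hqo : IsOpen {y | ∀ V ∈ q, y ∈ V} := by
        have : {y | ∀ V ∈ q, y ∈ V} = ⋂ V ∈ {V | V ∈ q}, V := by
          ext y; simp
        rw [this]
        refine Set.Finite.isOpen_biInter (List.finite_toSet q) (fun V hV => ?_)
        clear hzq this hzF
        induction q with
        | nil => simp at hV
        | cons U q ih =>
          rcases List.mem_cons.mp hV with rfl | h
          · exact hWo q _ hq.2.1
          · exact ih hq.1 h
      have hFo : IsOpen ((F : Set X)ᶜ) := F.finite_toSet.isClosed.isOpen_compl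
      obtain ⟨U, hUU, hzU⟩ : ∃ U ∈ 𝒰, z ∈ U := by
        have : z ∈ ⋃₀ 𝒰 := by rw [hcov]; trivial
        exact this
      obtain ⟨B, hBB, hzB, hBsub⟩ := hB.exists_subset_of_mem_open
        (show z ∈ ({y | ∀ V ∈ q, y ∈ V} ∩ (F : Set X)ᶜ) ∩ U from ⟨⟨hzq, by simpa using hzF⟩, hzU⟩)
        ((hqo.inter hFo).inter (hU U hUU))
      refine ⟨B, ⟨hBB, ⟨z, hzB⟩, U, hUU, fun y hy => (hBsub hy).2⟩, hzB, fun y hy hyB => ?_,
        fun V hV y hy => (hBsub hy).1.1 V hV⟩
      exact (hBsub hyB).1.2 (by simpa using hy))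
    exact ⟨V, hV, hz⟩

end Run7.h599.Sub
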