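import Mathlib

/-!
# Helper file for MP_ebd556_mp: the core matrix inequality

For positive semidefinite `A_1, …, A_n`, let `C = ∑ A_j`, let `Q` be positive definite with
`∑ A_j² ≤ Q²`, let `P = Q⁻¹` and `R = P C P`.
* `(C - Q) P (C + 2 Q) P (C - Q) = C P C P C - 3 C + 2 Q` is positive semidefinite.
* `Tr (R C²) = Tr (C P C P C)` and `Tr ((∑ A_j²) R C R) ≤ Tr (Q² R C R) = Tr (C P C P C)`.
* For positive `A, B`, Hermitian `R` and `X + Y = 1`,
  `Re Tr (R A B) ≤ Tr (A X X*) + Tr (B Y* Y) + ¼ Tr (A R B² R) + ¼ Tr (A² R B R)`;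
  with `X` the spectral projection of `A - B` on the negative half line the first two terms are
  `½ (Tr (A + B) - ‖A - B‖₁)`.
Summing over all pairs gives `core`.
-/

open Matrix
open scoped MatrixOrder ComplexOrder

namespace Run7.h599.TraceIneq

variable {d : ℕ}

abbrev M (d : ℕ) := Matrix (Fin d) (Fin d) ℂ

/-- real part of the trace -/
noncomputable def rt (X : M d) : ℝ := (Matrix.trace X).re

lemma rt_add (X Y : M d) : rt (X + Y) = rt X + rt Y := by simp [rt, Matrix.trace_add]
lemma rt_sub (X Y : M d) : rt (X - Y) = rt X - rt Y := by simp [rt, Matrix.trace_sub]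
lemma rt_smul (r : ℝ) (X : M d) : rt (r • X) = r * rt X := by simp [rt, Matrix.trace_smul]
lemma rt_comm (X Y : M d) : rt (X * Y) = rt (Y * X) := by unfold rt; rw [Matrix.trace_mul_comm]
lemma rt_star (X : M d) : rt Xᴴ = rt X := by simp [rt, Matrix.trace_conjTranspose]
lemma rt_nonneg {X : M d} (h : X.PosSemidef) : 0 ≤ rt X := by
  have := h.trace_nonneg
  exact (Complex.nonneg_iff.mp this).1
lemma rt_sum {ι : Type*} (s : Finset ι) (f : ι → M d) : rt (∑ i ∈ s, f i) = ∑ i ∈ s, rt (f i) := by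
  simp [rt, Matrix.trace_sum]

lemma rt_mul_nonneg {X Y : M d} (hX : X.PosSemidef) (hY : Y.PosSemidef) : 0 ≤ rt (X * Y) := by
  obtain ⟨B, rfl⟩ := CStarAlgebra.nonneg_iff_eq_star_mul_self.mp hY.nonneg
  rw [← mul_assoc, rt_comm, ← mul_assoc]
  have := hX.mul_mul_conjTranspose_same B
  exact rt_nonneg this

/-- AM-GM -/
lemma amgm1 (A B R X : M d) (hA : A.PosSemidef) (hB : B.IsHermitian) (hR : R.IsHermitian) :
    rt (R * A * X * B) ≤ rt (Xᴴ * A * X) + (1/4) * rt (A * R * (B * B) * R) := by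
  have h := rt_nonneg (hA.conjTranspose_mul_mul_same (X - (1/2 : ℝ) • (R * B)))
  have e : (X - (1/2 : ℝ) • (R * B))ᴴ * A * (X - (1/2 : ℝ) • (R * B))
      = Xᴴ * A * X - (1/2 : ℝ) • (Xᴴ * A * R * B) - (1/2 : ℝ) • (B * R * A * X)
        + (1/4 : ℝ) • (B * R * A * R * B) := by
    rw [conjTranspose_sub, conjTranspose_smul, conjTranspose_mul, hB.eq, hR.eq]
    simp only [star_trivial, sub_mul, mul_sub, Matrix.smul_mul, Matrix.mul_smul, mul_assoc, smul_smul]
    norm_num
    abel
  rw [e, rt_add, rt_sub, rt_sub, rt_smul, rt_smul, rt_smul] at h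
  have h1 : rt (Xᴴ * A * R * B) = rt (B * R * A * X) := by
    rw [← rt_star (B * R * A * X)]
    simp only [conjTranspose_mul, hB.eq, hR.eq, hA.1.eq, mul_assoc]
  have h2 : rt (B * R * A * X) = rt (R * A * X * B) := by
    rw [mul_assoc B R A, mul_assoc B (R*A) X, rt_comm]
  have h3 : rt (B * R * A * R * B) = rt (A * R * (B * B) * R) := by
    have : B * R * A * R * B = (B * R) * (A * R * B) := by simp only [mul_assoc]
    rw [this, rt_comm]; simp only [mul_assoc]
  rw [h1, h2, h3] at h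
  linarith

lemma amgm2 (A B R Y : M d) (hA : A.IsHermitian) (hB : B.PosSemidef) (hR : R.IsHermitian) :
    rt (R * A * Y * B) ≤ rt (Y * B * Yᴴ) + (1/4) * rt ((A * A) * R * B * R) := by
  have h := rt_nonneg (hB.mul_mul_conjTranspose_same (Y - (1/2 : ℝ) • (A * R)))
  have e : (Y - (1/2 : ℝ) • (A * R)) * B * (Y - (1/2 : ℝ) • (A * R))ᴴ
      = Y * B * Yᴴ - (1/2 : ℝ) • (Y * B * R * A) - (1/2 : ℝ) • (A * R * B * Yᴴ)
        + (1/4 : ℝ) • (A * R * B * R * A) := by
    rw [conjTranspose_sub, conjTranspose_smul, conjTranspose_mul, hA.eq, hR.eq]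
    simp only [star_trivial, sub_mul, mul_sub, Matrix.smul_mul, Matrix.mul_smul, mul_assoc, smul_smul]
    norm_num
    abel
  rw [e, rt_add, rt_sub, rt_sub, rt_smul, rt_smul, rt_smul] at h
  have h1 : rt (A * R * B * Yᴴ) = rt (Y * B * R * A) := by
    rw [← rt_star (Y * B * R * A)]
    simp only [conjTranspose_mul, hB.1.eq, hR.eq, hA.eq, mul_assoc]
  have h2 : rt (Y * B * R * A) = rt (R * A * Y * B) := by
    have : Y * B * R * A = (Y * B) * (R * A) := by simp only [mul_assoc]
    rw [this, rt_comm]; simp only [mul_assoc]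
  have h3 : rt (A * R * B * R * A) = rt ((A * A) * R * B * R) := by
    rw [rt_comm]; simp only [mul_assoc]
  rw [h1, h2, h3] at h
  linarith

lemma pair_gen (A B R X Y : M d) (hA : A.PosSemidef) (hB : B.PosSemidef) (hR : R.IsHermitian)
    (hXY : X + Y = 1) :
    rt (R * A * B) ≤ rt (Xᴴ * A * X) + rt (Y * B * Yᴴ) + (1/4) * rt (A * R * (B * B) * R)
      + (1/4) * rt ((A * A) * R * B * R) := by
  have e : R * A * B = R * A * X * B + R * A * Y * B := by
    rw [← add_mul, ← mul_add, hXY, mul_one]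
  rw [e, rt_add]
  have h1 := amgm1 A B R X hA hB.1 hR
  have h2 := amgm2 A B R Y hA.1 hB hR
  linarith

/-- The optimal test for two positive matrices. -/
lemma exists_test (Z : M d) (hZ : Z.IsHermitian) :
    ∃ T : M d, T.IsHermitian ∧ T * T = T ∧ rt (CFC.abs Z) = rt Z - 2 * rt (Z * T) := by
  have hZ' : IsSelfAdjoint Z := hZ
  have hcont : ∀ f : ℝ → ℝ, ContinuousOn f (spectrum ℝ Z) := fun f =>
    (Matrix.finite_real_spectrum).continuousOn f
  refine ⟨cfc (fun x : ℝ => if x < 0 then (1:ℝ) else 0) Z, ?_, ?_, ?_⟩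
  · exact (cfc_predicate (p := IsSelfAdjoint) _ Z)
  · rw [← cfc_mul _ _ Z (hcont _) (hcont _)]
    congr 1
    funext x
    split_ifs <;> simp
  · have h1 : Z * cfc (fun x : ℝ => if x < 0 then (1:ℝ) else 0) Z
        = cfc (fun x : ℝ => x * (if x < 0 then (1:ℝ) else 0)) Z := by
      rw [cfc_mul _ _ Z (hcont _) (hcont _), cfc_id' ℝ Z]
    have h2 : CFC.abs Z = cfc (fun x : ℝ => |x|) Z := by
      rw [CFC.abs_eq_cfc_norm Z]
      rfl
    rw [h1, h2]
    have h3 : cfc (fun x : ℝ => |x|) Z = Z - (2:ℝ) • cfc (fun x : ℝ => x * (if x < 0 then (1:ℝ) else 0)) Z := by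
      have h4 : (fun x : ℝ => |x|) = fun x : ℝ => x - (2:ℝ) • (x * (if x < 0 then (1:ℝ) else 0)) := by
        funext x
        split_ifs with h
        · rw [abs_of_neg h]; simp only [smul_eq_mul]; ring
        · rw [abs_of_nonneg (not_lt.mp h)]; simp
      rw [h4, cfc_sub _ _ Z (hcont _) (hcont _), cfc_smul (2:ℝ) _ Z (hcont _), cfc_id' ℝ Z]
    rw [h3, rt_sub, rt_smul]


/-- The pair bound in terms of the trace norm. -/
lemma pair_bound (A B R : M d) (hA : A.PosSemidef) (hB : B.PosSemidef) (hR : R.IsHermitian) :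
    rt (R * A * B) ≤ (1/2) * (rt (A + B) - rt (CFC.abs (A - B))) + (1/4) * rt (A * R * (B * B) * R)
      + (1/4) * rt ((A * A) * R * B * R) := by
  obtain ⟨T, hT, hTT, habs⟩ := exists_test (A - B) (hA.1.sub hB.1)
  have h := pair_gen A B R T (1 - T) hA hB hR (by abel)
  have h1 : rt (Tᴴ * A * T) = rt (A * T) := by
    rw [hT.eq, mul_assoc, rt_comm, mul_assoc, hTT]
  have h2 : rt ((1 - T) * B * (1 - T)ᴴ) = rt B - rt (B * T) := by
    have : (1 - T)ᴴ = 1 - T := by rw [conjTranspose_sub, conjTranspose_one, hT.eq]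
    rw [this, mul_assoc, rt_comm, mul_assoc]
    have h3 : (1 - T) * (1 - T) = 1 - T := by
      simp only [mul_sub, sub_mul, one_mul, mul_one, hTT]; abel
    rw [h3, mul_sub, mul_one, rt_sub]
  rw [h1, h2] at h
  rw [habs, sub_mul, rt_sub, rt_sub, rt_add]
  linarith

lemma diag_bound (A R : M d) (hA : A.PosSemidef) (hR : R.IsHermitian) :
    rt (R * A * A) ≤ (1/2) * rt A + (1/4) * rt (A * R * (A * A) * R)
      + (1/4) * rt ((A * A) * R * A * R) := by
  have h := pair_gen A A R ((1/2 : ℝ) • 1) ((1/2 : ℝ) • 1) hA hA hR (by rw [← add_smul]; norm_num)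
  have h1 : rt (((1/2 : ℝ) • (1 : M d))ᴴ * A * ((1/2 : ℝ) • 1)) = (1/4) * rt A := by
    rw [conjTranspose_smul, conjTranspose_one]
    simp only [star_trivial, Matrix.smul_mul, Matrix.mul_smul, one_mul, mul_one, smul_smul, rt_smul]
    norm_num
  have h2 : rt (((1/2 : ℝ) • (1 : M d)) * A * ((1/2 : ℝ) • 1)ᴴ) = (1/4) * rt A := by
    rw [conjTranspose_smul, conjTranspose_one]
    simp only [star_trivial, Matrix.smul_mul, Matrix.mul_smul, one_mul, mul_one, smul_smul, rt_smul]
    norm_num
  rw [h1, h2] at h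
  linarith

/-- The core inequality: for positive definite `Q` with `∑ A j ^ 2 ≤ Q ^ 2`. -/
lemma core {n : ℕ} (A : Fin n → M d) (hA : ∀ j, (A j).PosSemidef) (Q : M d) (hQ : Q.PosDef)
    (hQA : (Q * Q - ∑ j, A j * A j).PosSemidef) :
    ∑ j, rt (A j) - rt Q ≤ (1/2) * ∑ j, ∑ k, (if j = k then 0 else
        (rt (A j + A k) - rt (CFC.abs (A j - A k)))) := by
  set C : M d := ∑ j, A j with hC
  set P : M d := Q⁻¹ with hP
  have hQu : IsUnit Q.det := (Matrix.isUnit_iff_isUnit_det Q).mp hQ.isUnit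
  have hQP : Q * P = 1 := Matrix.mul_nonsing_inv Q hQu
  have hPQ : P * Q = 1 := Matrix.nonsing_inv_mul Q hQu
  have hPh : P.IsHermitian := hQ.1.inv
  have hCps : C.PosSemidef := by
    rw [hC]; exact Matrix.posSemidef_sum _ (fun j _ => hA j)
  set R : M d := P * C * P with hR
  have hRh : R.IsHermitian := by
    unfold Matrix.IsHermitian
    rw [hR, conjTranspose_mul, conjTranspose_mul, hPh.eq, hCps.1.eq, mul_assoc]
  -- (1) the algebraic identity
  have key1 : 0 ≤ rt (C * P * C * P * C) - 3 * rt C + 2 * rt Q := by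
    have hps : (C + (2:ℝ) • Q).PosSemidef := hCps.add (hQ.posSemidef.smul (by norm_num))
    have h := rt_nonneg (hps.mul_mul_conjTranspose_same ((C - Q) * P))
    have e : ((C - Q) * P) * (C + (2:ℝ) • Q) * ((C - Q) * P)ᴴ
        = C * P * C * P * C - (3:ℝ) • C + (2:ℝ) • Q := by
      have e1 : (C - Q) * P = C * P - 1 := by rw [sub_mul, hQP]
      have e2 : (C * P - 1)ᴴ = P * C - 1 := by
        rw [conjTranspose_sub, conjTranspose_mul, hPh.eq, hCps.1.eq, conjTranspose_one]
      rw [e1, e2]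
      have e3 : C * P * Q = C := by rw [mul_assoc, hPQ, mul_one]
      have e4 : Q * (P * C) = C := by rw [← mul_assoc, hQP, one_mul]
      have e5 : (C * P - 1) * (C + (2:ℝ) • Q) = C * P * C + (2:ℝ) • C - C - (2:ℝ) • Q := by
        rw [sub_mul, mul_add, one_mul, Matrix.mul_smul, e3]; abel
      rw [e5, mul_sub, mul_one, sub_mul, sub_mul, add_mul, Matrix.smul_mul, Matrix.smul_mul, e4]
      have e6 : C * P * C * (P * C) = C * P * C * P * C := by simp only [mul_assoc]
      have e7 : C * (P * C) = C * P * C := by simp only [mul_assoc]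
      rw [e6, e7]
      module
    rw [e, rt_add, rt_sub, rt_smul, rt_smul] at h
    linarith
  -- (2) the two trace evaluations
  have key2 : rt (R * C * C) = rt (C * P * C * P * C) := by
    have : R * C * C = (P * C * P * C) * C := by rw [hR]
    rw [this, rt_comm]
    simp only [mul_assoc]
  have hRCR : (R * C * R).PosSemidef := by
    have := hCps.mul_mul_conjTranspose_same R
    rwa [hRh.eq] at this
  have key3 : rt ((Q * Q) * (R * C * R)) = rt (C * P * C * P * C) := by
    have e1 : (Q * Q) * (R * C * R) = Q * (C * P * C * P * C * P) := by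
      rw [hR]
      have : Q * Q * (P * C * P * C * (P * C * P)) = Q * ((Q * P) * (C * P * C * (P * C * P))) := by
        simp only [mul_assoc]
      rw [this, hQP, one_mul]
      simp only [mul_assoc]
    rw [e1, rt_comm, mul_assoc, hPQ, mul_one]
  have key4 : rt ((∑ j, A j * A j) * (R * C * R)) ≤ rt (C * P * C * P * C) := by
    have h := rt_mul_nonneg hQA hRCR
    rw [sub_mul, rt_sub, key3] at h
    linarith
  -- (3) sum of the pair bounds
  have hpair : ∀ j k, rt (R * A j * A k) ≤
      (if j = k then (1/2) * rt (A j) else (1/2) * (rt (A j + A k) - rt (CFC.abs (A j - A k))))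
      + (1/4) * rt (A j * R * (A k * A k) * R) + (1/4) * rt ((A j * A j) * R * A k * R) := by
    intro j k
    split_ifs with h
    · subst h
      exact diag_bound (A j) R (hA j) hRh
    · exact pair_bound (A j) (A k) R (hA j) (hA k) hRh
  have hsum := Finset.sum_le_sum (fun j (_ : j ∈ Finset.univ) =>
    Finset.sum_le_sum (fun k (_ : k ∈ Finset.univ) => hpair j k))
  have hL : ∑ j, ∑ k, rt (R * A j * A k) = rt (R * C * C) := by
    rw [hC]
    simp only [Finset.mul_sum, Finset.sum_mul, rt_sum]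
    rw [Finset.sum_comm]
  have hR1 : ∑ j, ∑ k, rt (A j * R * (A k * A k) * R) = rt ((∑ j, A j * A j) * (R * C * R)) := by
    have : rt ((∑ j, A j * A j) * (R * C * R)) = rt (C * R * (∑ j, A j * A j) * R) := by
      rw [rt_comm]
      have e1 : R * C * R * (∑ j, A j * A j) = R * (C * R * (∑ j, A j * A j)) := by
        simp only [mul_assoc]
      rw [e1, rt_comm]
    rw [this, hC]
    simp only [Finset.mul_sum, Finset.sum_mul, rt_sum]
    rw [Finset.sum_comm]
  have hR2 : ∑ j, ∑ k, rt ((A j * A j) * R * A k * R) = rt ((∑ j, A j * A j) * (R * C * R)) := by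
    have e1 : (∑ j, A j * A j) * (R * C * R) = (∑ j, A j * A j) * R * C * R := by
      simp only [mul_assoc]
    rw [e1, hC]
    simp only [Finset.mul_sum, Finset.sum_mul, rt_sum]
    rw [Finset.sum_comm]
  simp only [Finset.sum_add_distrib, ← Finset.mul_sum] at hsum
  rw [hL, hR1, hR2, key2] at hsum
  have hdiag : ∑ j, ∑ k, (if j = k then (1/2) * rt (A j) else
      (1/2) * (rt (A j + A k) - rt (CFC.abs (A j - A k))))
      = (1/2) * rt C + (1/2) * ∑ j, ∑ k, (if j = k then 0 else
        (rt (A j + A k) - rt (CFC.abs (A j - A k)))) := by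
    have : ∀ j k, (if j = k then (1/2) * rt (A j) else
      (1/2) * (rt (A j + A k) - rt (CFC.abs (A j - A k))))
      = (if j = k then (1/2) * rt (A j) else 0) + (1/2) * (if j = k then 0 else
        (rt (A j + A k) - rt (CFC.abs (A j - A k)))) := by
      intro j k
      split_ifs <;> simp
    simp only [this, Finset.sum_add_distrib, ← Finset.mul_sum]
    congr 1
    simp only [Finset.sum_ite_eq, Finset.mem_univ, if_true]
    rw [hC, rt_sum, Finset.mul_sum]
  rw [hdiag] at hsum
  have hCsum : rt C = ∑ j, rt (A j) := by rw [hC, rt_sum]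
  rw [← hCsum]
  linarith


lemma half_sum {n : ℕ} (f : Fin n → Fin n → ℝ) (hf : ∀ j k, f j k = f k j) :
    (1/2) * ∑ j, ∑ k, (if j = k then 0 else f j k) = ∑ j, ∑ k with j < k, f j k := by
  have h1 : ∀ j k : Fin n, (if j = k then 0 else f j k)
      = (if j < k then f j k else 0) + (if k < j then f j k else 0) := by
    intro j k
    rcases lt_trichotomy j k with h | h | h
    · simp [h, h.ne, h.le]
    · simp [h]
    · simp [h, h.ne', h.le]
  have h2 : ∑ j, ∑ k, (if k < j then f j k else 0) = ∑ j, ∑ k, (if j < k then f j k else 0) := by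
    rw [Finset.sum_comm]
    refine Finset.sum_congr rfl (fun j _ => Finset.sum_congr rfl (fun k _ => ?_))
    rw [hf]
  simp only [h1, Finset.sum_add_distrib]
  rw [h2]
  simp only [Finset.sum_filter]
  ring


end Run7.h599.TraceIneq
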